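import Pool.Agent.Helper55K1.JKFew2
import Pool.Agent.Helper55K1.JKBe6

/-!
Jordan–Kronecker invariants of Lie algebras: the algebraic types with at least one Kronecker block
and few eigenvalues whose largest Jordan block is not unique are realised, and a necessary condition
with the same bound.
-/

namespace Pool.Agent.Results.MP_0fcc55_al.FewBadEigenvalues

open Pool.Agent.Helper55K1.JK

/-- The number of the Jordan blocks with the label `e`. -/
def num {n : ℕ} (c : Fin n → ℕ) (e : ℕ) : ℕ := (Finset.univ.filter fun j => c j = e).card

open Classical in
/-- Let a type have the Kronecker blocks of sizes `2 k_i + 1`, `i < m`, `m ≥ 1`, and the Jordan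
blocks of sizes `2 d_j > 0` with the labels `c_j`.
(1) If the number of the eigenvalues whose largest Jordan block is not unique is at most the sum of
the numbers `k_i + 1`, then the type is realised.
(2) If no `k_i` is `1`, at most one `k_i` is `0` and the type is realised, then the number of the
eigenvalues whose largest Jordan block is not unique and whose number of blocks differs from that of
all the other eigenvalues is at most the sum of the numbers `k_i + 1`. -/
theorem result {m n : ℕ} (k : Fin m → ℕ) (d c : Fin n → ℕ) (hm : 0 < m) (hd : ∀ j, 0 < d j) :
    (((Finset.univ.image c).filter fun e => Bad d c e).card ≤ ∑ i, (k i + 1) →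
      Realised k d c) ∧
    ((∀ i, k i ≠ 1) → (∀ i i', k i = 0 → k i' = 0 → i = i') → Realised k d c →
      ((Finset.univ.image c).filter fun e => Bad d c e ∧
        ∀ e', e' ≠ e → num c e' ≠ num c e).card ≤ ∑ i, (k i + 1)) := by
  refine ⟨fun hbad => few_bad k d c hm hd hbad, fun h1 h0 hr => ?_⟩
  refine few_needed_gen k d c hd h1 h0 _ (fun e he => ?_) hr
  obtain ⟨-, h2, h3⟩ := Finset.mem_filter.mp he
  refine ⟨h2, fun e' hee => ?_⟩
  by_contra hne
  apply h3 e' hne
  unfold num
  convert hee

end Pool.Agent.Results.MP_0fcc55_al.FewBadEigenvalues
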