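import Pool.Agent.Helper55K1.JKGlue

/-!
Jordan–Kronecker invariants of Lie algebras: the algebraic types with exactly one Kronecker block,
of size `1 × 1`.
-/

namespace Pool.Agent.Results.MP_0fcc55_al.OneTrivialBlock

open Pool.Agent.Helper55K1.JK

/-- A type with exactly one Kronecker block, of size `1 × 1`, and Jordan blocks of the sizes
`2 d_j > 0` is realised if and only if there is at most one eigenvalue whose largest Jordan block
is not unique. -/
theorem result {n : ℕ} (d c : Fin n → ℕ) (hd : ∀ j, 0 < d j) :
    Realised (fun _ : Fin 1 => 0) d c ↔ ∀ e e', Bad d c e → Bad d c e' → e = e' := by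
  constructor
  · intro h e e' b b'
    by_contra hne
    exact not_realised d c hne b b' h
  · exact one_trivial d c hd

end Pool.Agent.Results.MP_0fcc55_al.OneTrivialBlock
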