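import Pool.Agent.Helper55K1.JKDil

/-!
Jordan–Kronecker invariants of Lie algebras: every algebraic type which contains a Kronecker block
of size `3 × 3` is the invariant of some Lie algebra.
-/

namespace Pool.Agent.Results.MP_0fcc55_al.ThreeBlock

open Pool.Agent.Helper55K1.JK

/-- All algebraic types with a Kronecker block of size `3 × 3` are realised. -/
theorem result {m n : ℕ} (k : Fin m → ℕ) (d c : Fin n → ℕ) (h : ∃ i, k i = 1) :
    Realised k d c :=
  three_block k d c h

end Pool.Agent.Results.MP_0fcc55_al.ThreeBlock
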