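import Pool.Agent.Helper55K1.JKNil

/-!
Jordan–Kronecker invariants of Lie algebras: every algebraic type which contains two Kronecker
blocks of size `1 × 1` is the invariant of some Lie algebra.
-/

namespace Pool.Agent.Results.MP_0fcc55_al.TwoTrivialBlocks

open Pool.Agent.Helper55K1.JK

/-- All algebraic types with two Kronecker blocks of size `1 × 1` are realised. -/
theorem result {m n : ℕ} (k : Fin m → ℕ) (d c : Fin n → ℕ)
    (h : ∃ i j, i ≠ j ∧ k i = 0 ∧ k j = 0) : Realised k d c :=
  two_trivial k d c h

end Pool.Agent.Results.MP_0fcc55_al.TwoTrivialBlocks
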